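import Mathlib

namespace Pool.Agent.Results.MP_923311_co.Impure

/-- Permutations of all finite lengths. -/
abbrev P := Σ n : ℕ, Equiv.Perm (Fin n)

/-- Pattern containment: `π` has a subsequence (given by a strictly increasing choice of
positions `f`) whose entries are in the same relative order as the entries of `σ`. -/
def Le (σ π : P) : Prop :=
  ∃ f : Fin σ.1 → Fin π.1, StrictMono f ∧ ∀ i j, σ.2 i < σ.2 j ↔ π.2 (f i) < π.2 (f j)

/-- Strict containment. -/
def Lt (σ π : P) : Prop := Le σ π ∧ σ ≠ π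

lemma Le.len {σ π : P} (h : Le σ π) : σ.1 ≤ π.1 := by
  obtain ⟨f, hf, -⟩ := h
  simpa using Fintype.card_le_of_injective f hf.injective

lemma Le.eq_of_len {σ π : P} (h : Le σ π) (hl : σ.1 = π.1) : σ = π := by
  obtain ⟨n, s⟩ := σ
  obtain ⟨m, p⟩ := π
  obtain rfl : n = m := hl
  obtain ⟨f, hf, ho⟩ := h
  have hid : ∀ i, f i = i := by
    have := hf.range_inj (strictMono_id : StrictMono (id : Fin n → Fin n))
    have hs : Set.range f = Set.range (id : Fin n → Fin n) := by
      have : Function.Surjective f := Finite.surjective_of_injective hf.injective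
      rw [this.range_eq]; simp
    have h2 := (hf.range_inj strictMono_id).1 hs
    intro i; exact congrFun h2 i
  have ho' : ∀ i j : Fin n, s i < s j ↔ p i < p j := by
    intro i j
    have := ho i j
    simpa [hid] using this
  have hm : StrictMono (fun x : Fin n => p (s.symm x)) := by
    intro x y hxy
    rw [← ho']
    simpa using hxy
  have hid2 : (fun x : Fin n => p (s.symm x)) = id := by
    apply (hm.range_inj strictMono_id).1
    have : Function.Surjective (fun x : Fin n => p (s.symm x)) :=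
      Finite.surjective_of_injective hm.injective
    rw [this.range_eq]; simp
  have : s = p := by
    ext i
    have := congrFun hid2 (s i)
    simp at this
    rw [this]
  rw [this]

lemma Lt.len {σ π : P} (h : Lt σ π) : σ.1 < π.1 :=
  lt_of_le_of_ne h.1.len fun e => h.2 (h.1.eq_of_len e)

/-- The Mobius function of the pattern poset, by its defining recursion. -/
noncomputable def mu (σ π : P) : ℤ :=
  open Classical in
  if σ = π then 1
  else if Le σ π then - ∑ᶠ (τ : P) (_h : Le σ τ ∧ Lt τ π), mu σ τ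
  else 0
termination_by π.1
decreasing_by exact _h.2.len

/-- A face of the order complex on a set `S` of permutations: a finite chain of elements
of `S`. -/
def IsFace (S : Set P) (C : Finset P) : Prop :=
  (∀ a ∈ C, a ∈ S) ∧ ∀ a ∈ C, ∀ b ∈ C, a = b ∨ Lt a b ∨ Lt b a

/-- A facet: a face contained in no other face. -/
def IsFacet (S : Set P) (C : Finset P) : Prop :=
  IsFace S C ∧ ∀ D, IsFace S D → C ⊆ D → D = C

/-- The order complex of `S` is pure: all facets have the same dimension. -/
def Pure (S : Set P) : Prop :=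
  ∀ C D, IsFacet S C → IsFacet S D → C.card = D.card

/-- Vertices of `Γ(σ,π)`: the elements `τ` of the open interval with `μ(σ,τ) = 0`. -/
def zeroSet (σ π : P) : Set P := {τ | Lt σ τ ∧ Lt τ π ∧ mu σ τ = 0}

/-- The variant with `μ(σ,τ) ≠ 0`. -/
def nonzeroSet (σ π : P) : Set P := {τ | Lt σ τ ∧ Lt τ π ∧ mu σ τ ≠ 0}

/-! ### Basic order facts -/

lemma Le.refl (σ : P) : Le σ σ := ⟨id, strictMono_id, fun _ _ => Iff.rfl⟩

lemma Le.trans {a b c : P} (h1 : Le a b) (h2 : Le b c) : Le a c := by
  obtain ⟨f, hf, ho⟩ := h1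
  obtain ⟨g, hg, hp⟩ := h2
  exact ⟨g ∘ f, hg.comp hf, fun i j => (ho i j).trans (hp _ _)⟩

/-- Delete the entry at position `i` and standardize. -/
def del {n : ℕ} (p : Equiv.Perm (Fin (n + 1))) (i : Fin (n + 1)) : Equiv.Perm (Fin n) :=
  ((finSuccAboveEquiv i).trans
    (p.subtypeEquiv (fun a => by simp : ∀ a, a ≠ i ↔ p a ≠ p i))).trans
    (finSuccAboveEquiv (p i)).symm

lemma del_spec {n : ℕ} (p : Equiv.Perm (Fin (n + 1))) (i : Fin (n + 1)) (a : Fin n) :
    (p i).succAbove (del p i a) = p (i.succAbove a) := by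
  have h : ∀ (v : Fin (n + 1)) (x : {x : Fin (n + 1) // x ≠ v}),
      v.succAbove ((finSuccAboveEquiv v).symm x) = x.1 := fun v x =>
    congrArg Subtype.val ((finSuccAboveEquiv v).apply_symm_apply x)
  exact h _ _

lemma del_lt {n : ℕ} (p : Equiv.Perm (Fin (n + 1))) (i : Fin (n + 1)) (a b : Fin n) :
    del p i a < del p i b ↔ p (i.succAbove a) < p (i.succAbove b) := by
  rw [← del_spec, ← del_spec, Fin.succAbove_lt_succAbove_iff]

lemma del_le {n : ℕ} (p : Equiv.Perm (Fin (n + 1))) (i : Fin (n + 1)) :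
    Le ⟨n, del p i⟩ ⟨n + 1, p⟩ :=
  ⟨i.succAbove, Fin.strictMono_succAbove i, fun a b => del_lt p i a b⟩

lemma le_del {σ : P} {n : ℕ} (p : Equiv.Perm (Fin (n + 1))) (h : Le σ ⟨n + 1, p⟩)
    (hl : σ.1 < n + 1) : ∃ i, Le σ ⟨n, del p i⟩ := by
  obtain ⟨f, hf, ho⟩ := h
  have hns : ¬ Function.Surjective f := by
    intro hs
    have := Fintype.card_le_of_surjective f hs
    simp at this
    omega
  obtain ⟨i, hi⟩ := not_forall.1 hns
  have hne : ∀ x, f x ≠ i := fun x hx => hi ⟨x, hx⟩
  choose g hg using fun x => Fin.exists_succAbove_eq (hne x)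
  refine ⟨i, g, ?_, ?_⟩
  · intro x y hxy
    rw [← Fin.succAbove_lt_succAbove_iff (p := i), hg, hg]
    exact hf hxy
  · intro x y
    rw [ho x y]
    show _ ↔ del p i (g x) < del p i (g y)
    rw [del_lt, hg, hg]

/-! ### One-line codes -/

/-- One-line notation (values `0, …, n-1`). -/
def code (π : P) : List ℕ := List.ofFn fun i => (π.2 i : ℕ)

@[simp] lemma code_length (π : P) : (code π).length = π.1 := by simp [code]

lemma code_inj : Function.Injective code := by
  rintro ⟨n, s⟩ ⟨m, p⟩ h
  have hl : n = m := by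
    have := congrArg List.length h
    simpa using this
  subst hl
  have : s = p := by
    ext i
    have h2 := List.ofFn_injective h
    exact congrFun h2 i
  rw [this]

/-- Delete the entry at position `i` of a one-line code and standardize. -/
def delC (l : List ℕ) (i : ℕ) : List ℕ :=
  (l.eraseIdx i).map fun x => if x < l.getD i 0 then x else x - 1

lemma code_getElem {n : ℕ} (p : Equiv.Perm (Fin n)) (k : ℕ) (h : k < (code ⟨n, p⟩).length) :
    (code ⟨n, p⟩)[k] = (p ⟨k, by simpa using h⟩ : ℕ) := by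
  unfold code
  rw [List.getElem_ofFn]

lemma code_del {n : ℕ} (p : Equiv.Perm (Fin (n + 1))) (i : Fin (n + 1)) :
    code ⟨n, del p i⟩ = delC (code ⟨n + 1, p⟩) i := by
  have hin : (i : ℕ) < (code ⟨n + 1, p⟩).length := by simp only [code_length]; exact i.2
  have hv : (code ⟨n + 1, p⟩).getD (i : ℕ) 0 = (p i : ℕ) := by
    rw [List.getD_eq_getElem _ _ hin, code_getElem]
  have hlen : (code ⟨n, del p i⟩).length = (delC (code ⟨n + 1, p⟩) i).length := by
    unfold delC
    rw [List.length_map, List.length_eraseIdx, if_pos hin]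
    simp only [code_length]
    rfl
  apply List.ext_getElem hlen
  intro k h1 h2
  have hk : k < n := by simpa only [code_length] using h1
  have hs := del_spec p i ⟨k, hk⟩
  have hs' := congrArg Fin.val hs
  rw [code_getElem]
  simp only [delC, hv, List.getElem_map, List.getElem_eraseIdx]
  have e2 : (if h : k < (i : ℕ) then (code ⟨n + 1, p⟩)[k]'(by simp only [code_length]; omega)
      else (code ⟨n + 1, p⟩)[k + 1]'(by simp only [code_length]; omega)) =
      (p (i.succAbove ⟨k, hk⟩) : ℕ) := by
    split_ifs with hki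
    · have : i.succAbove ⟨k, hk⟩ = ⟨k, by omega⟩ := by
        rw [Fin.succAbove_of_castSucc_lt _ _ (by simpa [Fin.lt_def] using hki)]
        rfl
      rw [code_getElem, this]
    · have : i.succAbove ⟨k, hk⟩ = ⟨k + 1, by omega⟩ := by
        rw [Fin.succAbove_of_le_castSucc _ _ (by simpa [Fin.le_def] using hki)]
        rfl
      rw [code_getElem, this]
  rw [e2, ← hs']
  generalize del p i ⟨k, hk⟩ = y
  generalize p i = v
  by_cases hyv : (y : ℕ) < v
  · have : v.succAbove y = y.castSucc :=
      Fin.succAbove_of_castSucc_lt _ _ (by simpa [Fin.lt_def] using hyv)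
    rw [this]
    simp [hyv]
  · have : v.succAbove y = y.succ :=
      Fin.succAbove_of_le_castSucc _ _ (by simpa [Fin.le_def] using hyv)
    rw [this]
    simp
    omega

/-- Codes of all patterns contained in `l` (with fuel). -/
def down : ℕ → List ℕ → List (List ℕ)
  | 0, l => [l]
  | n + 1, l => l :: ((List.range (n + 1)).flatMap fun i => down n (delC l i)).dedup

lemma mem_down : ∀ (n : ℕ) (p : Equiv.Perm (Fin n)) (c : List ℕ),
    c ∈ down n (code ⟨n, p⟩) ↔ ∃ τ : P, Le τ ⟨n, p⟩ ∧ code τ = c := by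
  intro n
  induction n with
  | zero =>
    intro p c
    simp only [down, List.mem_singleton]
    constructor
    · rintro rfl
      exact ⟨⟨0, p⟩, Le.refl _, rfl⟩
    · rintro ⟨τ, h, rfl⟩
      have : τ = ⟨0, p⟩ := h.eq_of_len (Nat.le_zero.1 h.len)
      rw [this]
  | succ n ih =>
    intro p c
    simp only [down, List.mem_cons, List.mem_dedup, List.mem_flatMap, List.mem_range]
    constructor
    · rintro (rfl | ⟨i, hi, hc⟩)
      · exact ⟨_, Le.refl _, rfl⟩
      · have := code_del p ⟨i, hi⟩
        simp only at this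
        rw [← this] at hc
        obtain ⟨τ, h1, h2⟩ := (ih _ _).1 hc
        exact ⟨τ, h1.trans (del_le p ⟨i, hi⟩), h2⟩
    · rintro ⟨τ, h, rfl⟩
      by_cases he : τ.1 = n + 1
      · left
        rw [h.eq_of_len he]
      · right
        obtain ⟨i, hi⟩ := le_del p h (lt_of_le_of_ne h.len he)
        refine ⟨i, i.2, ?_⟩
        have := code_del p i
        rw [← this]
        exact (ih _ _).2 ⟨τ, hi, rfl⟩

lemma le_iff (τ π : P) : Le τ π ↔ code τ ∈ down π.1 (code π) := by
  rw [mem_down π.1 π.2]
  constructor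
  · intro h
    exact ⟨τ, h, rfl⟩
  · rintro ⟨τ', h, hc⟩
    rwa [← code_inj hc]

/-! ### Evaluating the Mobius function from the one-element permutation -/

/-- The permutation `1` of length one. -/
def one : P := ⟨1, 1⟩

lemma code_one : code one = [0] := by decide

lemma le_one_iff (τ : P) : Le one τ ↔ 1 ≤ τ.1 := by
  constructor
  · intro h; exact h.len
  · intro h
    refine ⟨fun _ => ⟨0, h⟩, ?_, ?_⟩
    · intro i j hij
      exact absurd hij (by
        have : i = j := Subsingleton.elim (α := Fin 1) i j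
        rw [this]; exact lt_irrefl _)
    · intro i j
      have : i = j := Subsingleton.elim (α := Fin 1) i j
      subst this
      simp

/-- Codes of the nonempty proper patterns of `c`. -/
def pd (c : List ℕ) : List (List ℕ) :=
  ((down c.length c).filter fun d => (d != c) && (1 ≤ d.length : Bool)).dedup

lemma mem_pd (π : P) (d : List ℕ) :
    d ∈ pd (code π) ↔ ∃ τ : P, (Le one τ ∧ Lt τ π) ∧ code τ = d := by
  unfold pd
  rw [List.mem_dedup, List.mem_filter]
  simp only [code_length, Bool.and_eq_true, bne_iff_ne, ne_eq, decide_eq_true_eq]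
  rw [mem_down π.1 π.2]
  constructor
  · rintro ⟨⟨τ, h, rfl⟩, hne, hl⟩
    refine ⟨τ, ⟨?_, h, ?_⟩, rfl⟩
    · rw [le_one_iff]; simpa using hl
    · rintro rfl; exact hne rfl
  · rintro ⟨τ, ⟨h1, h2, h3⟩, rfl⟩
    refine ⟨⟨τ, h2, rfl⟩, fun h => h3 (code_inj h), ?_⟩
    rw [le_one_iff] at h1; simpa using h1

/-- Table lookup. -/
def look (K : List (List ℕ × ℤ)) (c : List ℕ) : ℤ := (K.lookup c).getD 0

/-- The checks that make `K` a correct table of `μ(1, ·)`. -/
def good (K : List (List ℕ × ℤ)) : Bool :=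
  K.all fun e =>
    ((e.1 == [0]) && (look K e.1 == 1)) ||
    ((2 ≤ e.1.length : Bool) && (pd e.1).all (fun d => (K.map Prod.fst).contains d) &&
      (look K e.1 == - ((pd e.1).map (look K)).sum))

lemma mu_tab (K : List (List ℕ × ℤ)) (hK : good K = true) :
    ∀ (n : ℕ) (τ : P), τ.1 = n → code τ ∈ K.map Prod.fst → mu one τ = look K (code τ) := by
  intro n
  induction n using Nat.strong_induction_on with
  | _ n ih =>
    intro τ hn hτ
    obtain ⟨e, he, hec⟩ := List.mem_map.1 hτ
    have hg := List.all_eq_true.1 hK e he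
    rw [hec] at hg
    simp only [Bool.or_eq_true, Bool.and_eq_true, beq_iff_eq, decide_eq_true_eq,
      List.all_eq_true, List.contains_iff_mem, code_length] at hg
    rcases hg with ⟨h0, h1⟩ | ⟨⟨h2, h3⟩, h4⟩
    · have : τ = one := code_inj (h0.trans code_one.symm)
      rw [h1, this, mu]
      simp
    · have hne : one ≠ τ := by
        rintro rfl
        exact absurd h2 (by decide)
      have hle : Le one τ := (le_one_iff τ).2 (by omega)
      rw [mu, if_neg hne, if_pos hle, h4]
      congr 1
      have hb : Set.BijOn code {τ' : P | Le one τ' ∧ Lt τ' τ}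
          (↑((pd (code τ)).toFinset) : Set (List ℕ)) := by
        refine ⟨?_, code_inj.injOn, ?_⟩
        · intro τ' h
          simp only [Finset.mem_coe, List.mem_toFinset]
          exact (mem_pd τ _).2 ⟨τ', h, rfl⟩
        · intro d hd
          simp only [Finset.mem_coe, List.mem_toFinset] at hd
          obtain ⟨τ', h, h'⟩ := (mem_pd τ _).1 hd
          exact ⟨τ', h, h'⟩
      have hv : ∀ x ∈ {τ' : P | Le one τ' ∧ Lt τ' τ}, mu one x = look K (code x) := by
        intro x hx
        have hx2 : Lt x τ := hx.2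
        exact ih x.1 (by rw [← hn]; exact hx2.len) x rfl (h3 _ ((mem_pd τ _).2 ⟨x, hx, rfl⟩))
      have key := finsum_mem_eq_of_bijOn (f := mu one) (g := look K) code hb hv
      rw [finsum_mem_coe_finset, List.sum_toFinset _ (by unfold pd; exact List.nodup_dedup _)] at key
      exact key

lemma mem_open (K : List (List ℕ × ℤ)) (hK : good K = true) (π : P)
    (hcl : (pd (code π)).all (fun d => (K.map Prod.fst).contains d) = true)
    (p : ℤ → Bool) (τ : P) :
    (Lt one τ ∧ Lt τ π ∧ p (mu one τ) = true) ↔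
      code τ ∈ (pd (code π)).filter fun d => (2 ≤ d.length : Bool) && p (look K d) := by
  rw [List.mem_filter, mem_pd]
  simp only [code_length, Bool.and_eq_true, decide_eq_true_eq]
  have hc : ∀ d ∈ pd (code π), d ∈ K.map Prod.fst := by
    intro d hd
    have := List.all_eq_true.1 hcl d hd
    simpa only [List.contains_iff_mem] using this
  constructor
  · rintro ⟨h1, h2, h3⟩
    refine ⟨⟨τ, ⟨h1.1, h2⟩, rfl⟩, h1.len, ?_⟩
    rw [← mu_tab K hK _ τ rfl (hc _ ((mem_pd π _).2 ⟨τ, ⟨h1.1, h2⟩, rfl⟩))]
    exact h3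
  · rintro ⟨⟨τ', ⟨h1, h2⟩, h3⟩, h4, h5⟩
    have : τ' = τ := code_inj h3
    subst this
    refine ⟨⟨h1, ?_⟩, h2, ?_⟩
    · rintro rfl; exact absurd h4 (by decide)
    · rw [mu_tab K hK _ τ' rfl (hc _ ((mem_pd π _).2 ⟨τ', ⟨h1, h2⟩, rfl⟩))]
      exact h5

/-- Comparability of codes. -/
def cmp (a b : List ℕ) : Bool :=
  (a == b) || (down b.length b).contains a || (down a.length a).contains b

lemma cmp_iff (a b : P) : cmp (code a) (code b) = true ↔ (a = b ∨ Lt a b ∨ Lt b a) := by
  unfold cmp
  simp only [Bool.or_eq_true, beq_iff_eq, List.contains_iff_mem, code_length]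
  rw [← le_iff, ← le_iff]
  constructor
  · rintro ((h | h) | h)
    · exact Or.inl (code_inj h)
    · by_cases e : a = b
      · exact Or.inl e
      · exact Or.inr (Or.inl ⟨h, e⟩)
    · by_cases e : a = b
      · exact Or.inl e
      · exact Or.inr (Or.inr ⟨h, fun e' => e e'.symm⟩)
  · rintro (h | h | h)
    · exact Or.inl (Or.inl (by rw [h]))
    · exact Or.inl (Or.inr h.1)
    · exact Or.inr h.1

/-- Code-level check that `C` is a facet of the complex on the codes `Z`. -/
def facetC (Z C : List (List ℕ)) : Bool :=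
  (C.all fun a => Z.contains a) && (C.all fun a => C.all fun b => cmp a b) &&
  (Z.all fun z => (!(C.all fun a => cmp a z)) || C.contains z)

lemma exists_facet (S : Set P) (Z : List (List ℕ)) (hS : ∀ τ, τ ∈ S ↔ code τ ∈ Z)
    (hZ : ∀ c ∈ Z, ∃ τ, code τ = c) (C : List (List ℕ)) (hC : facetC Z C = true)
    (hnd : C.Nodup) : ∃ F : Finset P, IsFacet S F ∧ F.card = C.length := by
  classical
  unfold facetC at hC
  simp only [Bool.and_eq_true, List.all_eq_true, List.contains_iff_mem, Bool.or_eq_true,
    Bool.not_eq_true'] at hC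
  obtain ⟨⟨h1, h2⟩, h3⟩ := hC
  have hinv : ∀ c ∈ C, code (Function.invFun code c) = c := fun c hc =>
    Function.invFun_eq (hZ c (h1 c hc))
  let F : Finset P := C.toFinset.image (Function.invFun code)
  have hF : ∀ τ, τ ∈ F ↔ code τ ∈ C := by
    intro τ
    simp only [F, Finset.mem_image, List.mem_toFinset]
    constructor
    · rintro ⟨c, hc, rfl⟩
      rwa [hinv c hc]
    · intro h
      exact ⟨code τ, h, Function.leftInverse_invFun code_inj τ⟩
  refine ⟨F, ⟨⟨?_, ?_⟩, ?_⟩, ?_⟩
  · intro a ha
    exact (hS a).2 (h1 _ ((hF a).1 ha))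
  · intro a ha b hb
    exact (cmp_iff a b).1 (h2 _ ((hF a).1 ha) _ ((hF b).1 hb))
  · rintro D ⟨hD1, hD2⟩ hsub
    apply Finset.Subset.antisymm _ hsub
    intro d hd
    rw [hF]
    rcases h3 (code d) ((hS d).1 (hD1 d hd)) with h | h
    · exfalso
      have : (C.all fun a => cmp a (code d)) = true := by
        rw [List.all_eq_true]
        intro c hc
        have hm : Function.invFun code c ∈ F := by rw [hF, hinv c hc]; exact hc
        have := (cmp_iff (Function.invFun code c) d).2 (hD2 _ (hsub hm) d hd)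
        rwa [hinv c hc] at this
      rw [this] at h
      exact absurd h (by simp)
    · exact h
  · rw [Finset.card_image_of_injOn, List.toFinset_card_of_nodup hnd]
    intro a ha b hb hab
    have ha' : a ∈ C := by simpa using ha
    have hb' : b ∈ C := by simpa using hb
    rw [← hinv a ha', ← hinv b hb', hab]

/-- Table of `μ(1, ·)`. -/
def K : List (List ℕ × ℤ) :=
  [([0], 1), ([0, 1], -1), ([1, 0], -1), ([0, 1, 2], 0), ([0, 2, 1], 1), ([1, 0, 2], 1),
   ([1, 2, 0], 1), ([2, 1, 0], 0), ([0, 1, 2, 3], 0), ([0, 1, 3, 2], 0), ([0, 2, 1, 3], -1),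
   ([0, 2, 3, 1], -1), ([0, 3, 2, 1], 0), ([1, 0, 2, 3], 0), ([1, 0, 3, 2], -1),
   ([2, 1, 3, 0], -1), ([0, 1, 3, 4, 2], 0), ([0, 2, 1, 3, 4], 0), ([0, 2, 1, 4, 3], 1),
   ([1, 0, 3, 4, 2], 0)]

lemma K_good : good K = true := by decide +kernel

/-- The permutation `14352`. -/
def p5 : P := ⟨5, ⟨![0, 3, 2, 4, 1], ![0, 4, 2, 1, 3], by decide, by decide⟩⟩

/-- The permutation `132564`. -/
def p6 : P := ⟨6, ⟨![0, 2, 1, 4, 5, 3], ![0, 2, 1, 5, 3, 4], by decide, by decide⟩⟩

lemma code_p5 : code p5 = [0, 3, 2, 4, 1] := by decide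

lemma code_p6 : code p6 = [0, 2, 1, 4, 5, 3] := by decide

lemma not_pure (π : P) (p : ℤ → Bool)
    (hcl : (pd (code π)).all (fun d => (K.map Prod.fst).contains d) = true)
    (C1 C2 : List (List ℕ)) (n1 : C1.Nodup) (n2 : C2.Nodup) (hne : C1.length ≠ C2.length)
    (h1 : facetC ((pd (code π)).filter fun d => (2 ≤ d.length : Bool) && p (look K d)) C1 = true)
    (h2 : facetC ((pd (code π)).filter fun d => (2 ≤ d.length : Bool) && p (look K d)) C2 = true) :
    ¬ Pure {τ | Lt one τ ∧ Lt τ π ∧ p (mu one τ) = true} := by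
  have hS := mem_open K K_good π hcl p
  have hZ : ∀ c ∈ (pd (code π)).filter (fun d => (2 ≤ d.length : Bool) && p (look K d)),
      ∃ τ, code τ = c := by
    intro c hc
    obtain ⟨τ, -, h⟩ := (mem_pd π c).1 (List.mem_filter.1 hc).1
    exact ⟨τ, h⟩
  obtain ⟨F1, f1, c1⟩ := exists_facet {τ | Lt one τ ∧ Lt τ π ∧ p (mu one τ) = true} _
    (fun τ => hS τ) hZ C1 h1 n1
  obtain ⟨F2, f2, c2⟩ := exists_facet {τ | Lt one τ ∧ Lt τ π ∧ p (mu one τ) = true} _
    (fun τ => hS τ) hZ C2 h2 n2
  intro h
  exact hne (by rw [← c1, ← c2]; exact h F1 F2 f1 f2)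

/-- Q1 is false: the complex on the elements `τ` of an open interval `(σ,π)` of the
permutation pattern poset with `μ(σ,τ) = 0` need not be pure (`σ = 1`, `π = 14352`). -/
theorem result : ¬ ∀ σ π : P, Le σ π → Pure (zeroSet σ π) := by
  intro h
  have hp := h one p5 ((le_one_iff _).2 (by decide))
  have := not_pure p5 (fun z => decide (z = 0))
    (by rw [code_p5]; decide +kernel) [[0, 1, 2]] [[2, 1, 0], [0, 3, 2, 1]]
    (by decide) (by decide) (by decide)
    (by rw [code_p5]; decide +kernel) (by rw [code_p5]; decide +kernel)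
  apply this
  simpa [zeroSet] using hp

end Pool.Agent.Results.MP_923311_co.Impure
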