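import Pool.Agent.Results.MP_923311_co.Impure

/-!
# MP_923311_co : the variant with nonzero Mobius function

The complex on the elements `τ` of the open interval `(σ,π)` with `μ(σ,τ) ≠ 0` need not be pure
either (`σ = 1`, `π = 132564`).
-/

namespace Pool.Agent.Results.MP_923311_co.ImpureNonzero

open Pool.Agent.Results.MP_923311_co.Impure

/-- The complex on the elements `τ` of an open interval `(σ,π)` of the permutation pattern poset
with `μ(σ,τ) ≠ 0` need not be pure. -/
theorem result : ¬ ∀ σ π : P, Le σ π → Impure.Pure (nonzeroSet σ π) := by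
  intro h
  have hp := h one p6 ((le_one_iff _).2 (by decide))
  have := not_pure p6 (fun z => decide (z ≠ 0))
    (by rw [code_p6]; decide +kernel) [[0, 1], [0, 2, 1], [0, 2, 3, 1]]
    [[0, 1], [0, 2, 1], [0, 2, 1, 3], [0, 2, 1, 4, 3]]
    (by decide) (by decide) (by decide)
    (by rw [code_p6]; decide +kernel) (by rw [code_p6]; decide +kernel)
  apply this
  simpa [nonzeroSet] using hp

end Pool.Agent.Results.MP_923311_co.ImpureNonzero
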